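import Pool.Agent.TH71.GR.Stm

set_option autoImplicit false

/-!
# Residue zero implies rational combinations of the pivots
-/

namespace Pool.Agent.TH558.GR

open Pool.Agent.NPC Pool.Agent.H558R2 Pool.Agent.H622R3.SM Pool.Agent.W920.FC Pool.Agent.W920.FD
open Pool.Agent.TH71.PG Pool.Agent.TH71.GR

theorem t_LSEM : S_LSEM := by
  classical
  intro N E h J w s hI hP hz
  obtain ⟨S, hScard, hSN, hpiv⟩ := hP
  obtain ⟨⟨hs1, -, hFlen, hFsm, hD⟩, hD1, -⟩ := hI
  have hmem : ∀ l < N, (l ∈ S ↔ (s.2.1.getD l []).getD l 0 = 0) := by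
    intro l hl
    constructor
    · intro hlS
      exact (hpiv l hl).1 hlS l hl
    · intro h0
      by_contra hlS
      have h1 := ((hpiv l hl).2 hlS).1
      rw [h0] at h1
      omega
  have hsmall : ∀ l < N, ∀ i, ((s.2.1.getD l []).getD i 0).natAbs ≤
      2 ^ (((N + 1) * E + 1) * J) := by
    intro l hl i
    have hlF : l < s.2.1.length := by omega
    have hFm : s.2.1.getD l [] ∈ s.2.1 := by
      rw [List.getD_eq_getElem _ _ hlF]
      exact List.getElem_mem hlF
    have hsl := (hFsm _ hFm).2
    by_cases hi : i < (s.2.1.getD l []).length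
    · rw [List.getD_eq_getElem _ _ hi]
      exact hsl _ (List.getElem_mem hi)
    · rw [List.getD_eq_default _ _ (not_lt.1 hi)]
      simp
  refine ⟨?_, ?_⟩
  · intro l hl
    by_cases hlS : l ∈ S
    · have h1 : SF {p | ∃ i < N, (s.2.1.getD i []).getD i 0 = 0 ∧ w i = p} 1 (w l) :=
        SF.of_mem ⟨l, hl, (hmem l hl).1 hlS, rfl⟩
      have h2 := SF.nat h1 s.2.2
      refine h2.mono ?_
      rw [mul_one]
      calc s.2.2 ≤ 2 ^ (((N + 1) * E) * J) := hD
        _ ≤ 2 ^ (((N + 1) * E + 1) * J) :=
            Nat.pow_le_pow_right (by norm_num) (Nat.mul_le_mul_right _ (Nat.le_succ _))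
        _ = 1 * 2 ^ (((N + 1) * E + 1) * J) := (one_mul _).symm
        _ ≤ N * 2 ^ (((N + 1) * E + 1) * J) := Nat.mul_le_mul_right _ (by omega)
    · have h0 := hz l hl
      obtain ⟨hdl, hoff⟩ := (hpiv l hl).2 hlS
      have e : (s.2.2 : ℝ) * w l = ∑ i ∈ Finset.range N,
          (if i = l then 0 else -(((s.2.1.getD l []).getD i 0 : ℤ) : ℝ) * w i) := by
        have e1 : evF N w (s.2.1.getD l []) = (((s.2.1.getD l []).getD l 0 : ℤ) : ℝ) * w l +
            ∑ i ∈ (Finset.range N).erase l, (((s.2.1.getD l []).getD i 0 : ℤ) : ℝ) * w i := by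
          exact (Finset.add_sum_erase (Finset.range N)
            (fun i => (((s.2.1.getD l []).getD i 0 : ℤ) : ℝ) * w i)
            (Finset.mem_range.2 hl)).symm
        have e2 : ∑ i ∈ Finset.range N,
            (if i = l then 0 else -(((s.2.1.getD l []).getD i 0 : ℤ) : ℝ) * w i) =
            ∑ i ∈ (Finset.range N).erase l, -(((s.2.1.getD l []).getD i 0 : ℤ) : ℝ) * w i := by
          rw [← Finset.add_sum_erase _ _ (Finset.mem_range.2 hl), if_pos rfl, zero_add]
          refine Finset.sum_congr rfl fun i hi => ?_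
          rw [if_neg (Finset.ne_of_mem_erase hi)]
        rw [e2]
        simp only [neg_mul, Finset.sum_neg_distrib]
        rw [hdl, h0] at e1
        push_cast at e1
        linarith
      rw [e]
      have := SF.sum (P := {p | ∃ i < N, (s.2.1.getD i []).getD i 0 = 0 ∧ w i = p})
        (X := 2 ^ (((N + 1) * E + 1) * J)) (Finset.range N)
        (fun i => if i = l then 0 else -(((s.2.1.getD l []).getD i 0 : ℤ) : ℝ) * w i) ?_
      · rwa [Finset.card_range] at this
      · intro i hi
        have hiN := Finset.mem_range.1 hi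
        by_cases hil : i = l
        · simp only [hil, if_true]
          exact SF.zero' _
        · simp only [if_neg hil]
          by_cases hiS : i ∈ S
          · have h1 : SF {p | ∃ i < N, (s.2.1.getD i []).getD i 0 = 0 ∧ w i = p} 1 (w i) :=
              SF.of_mem ⟨i, hiN, (hmem i hiN).1 hiS, rfl⟩
            have h2 := (SF.int h1 ((s.2.1.getD l []).getD i 0)).neg
            rw [← neg_mul] at h2
            refine h2.mono ?_
            rw [mul_one]
            exact hsmall l hl i
          · rw [hoff i hiN hil hiS]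
            simp only [Int.cast_zero, neg_zero, zero_mul]
            exact SF.zero' _
  · have h1 : ((List.range N).filter fun l => decide ((s.2.1.getD l []).getD l 0 = 0)).length ≤
        S.card := by
      have hnd : ((List.range N).filter
          fun l => decide ((s.2.1.getD l []).getD l 0 = 0)).Nodup :=
        List.nodup_range.filter _
      rw [← List.toFinset_card_of_nodup hnd]
      refine Finset.card_le_card fun l hl => ?_
      rw [List.mem_toFinset, List.mem_filter, List.mem_range, decide_eq_true_eq] at hl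
      exact (hmem l hl.1).2 hl.2
    exact h1.trans (hScard.trans hs1)

end Pool.Agent.TH558.GR
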