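import Pool.Agent.TH71.GR.Stm

set_option autoImplicit false

/-!
# Potentials in the support graph
-/

namespace Pool.Agent.TH558.GR

open Pool.Agent.NPC Pool.Agent.H558R2 Pool.Agent.H622R3.SM Pool.Agent.W920.FC Pool.Agent.W920.FD
open Pool.Agent.TH71.PG Pool.Agent.TH71.GR

namespace POT

theorem signOut_none (v : ℝ) : signOut v = none ↔ v = 0 := by
  unfold signOut
  constructor
  · intro h
    split_ifs at h with h1 h2
    exact le_antisymm (not_lt.1 h1) (not_lt.1 h2)
  · rintro rfl
    simp

section

variable {m n : ℕ} {c : Cand} {g : Reg → ℝ} {o : List Outcome} {x : PS} {u v : ℕ}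

theorem getD_lpS (hv : v < m + n) :
    (lpS m n c o x).getD v (0, ([], [])) =
      ((nb m n c o x v).map fun u => (lab x u, (de x u, er m v u :: nu x u))).getD
        (x.getD v (0, ([], []))) := by
  unfold lpS
  rw [List.getD_eq_getElem _ _ (by simpa using hv)]
  simp

theorem getD_lpS_ge (hv : m + n ≤ v) :
    (lpS m n c o x).getD v (0, ([], [])) = (0, ([], [])) := by
  rw [List.getD_eq_default _ _ (by simpa [lpS] using hv)]

theorem adj_spec (ho : OK0 m n g o) (hv : v < m + n) (hu : u < m + n)
    (h : adj m n c o v u = true) : min v u < m ∧ m ≤ max v u ∧ min v u ∉ c.1 ∧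
      max v u - m ∉ c.2 ∧ g (er m v u) ≠ 0 ∧ max v u - m < n := by
  unfold adj at h
  simp only [Bool.and_eq_true, decide_eq_true_eq, Bool.not_eq_true',
    decide_eq_false_iff_not] at h
  obtain ⟨h1, h2, h3, h4, h5⟩ := h
  have h6 : max v u - m < n := by
    have : max v u < m + n := max_lt hv hu
    omega
  refine ⟨h1, h2, h3, h4, ?_, h6⟩
  rw [ho _ h1 _ h6, signOut_none] at h5
  exact h5

theorem adj_ent (ho : OK0 m n g o) (hv : v < m + n) (hu : u < m + n)
    (h : adj m n c o v u = true) : Ent m n c (er m v u) ∧ g (er m v u) ≠ 0 := by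
  obtain ⟨h1, h2, h3, h4, h5, h6⟩ := adj_spec ho hv hu h
  exact ⟨⟨_, h1, _, h6, rfl, h3, h4⟩, h5⟩

theorem adj_intro (ho : OK0 m n g o) {i j : ℕ} (hi : i < m) (hj : j < n) (hi1 : i ∉ c.1)
    (hj2 : j ∉ c.2) (hg : g [0, i, j] ≠ 0) :
    adj m n c o i (m + j) = true ∧ adj m n c o (m + j) i = true := by
  have e1 : min i (m + j) = i := min_eq_left (by omega)
  have e2 : max i (m + j) = m + j := max_eq_right (by omega)
  have e3 : min (m + j) i = i := min_eq_right (by omega)
  have e4 : max (m + j) i = m + j := max_eq_left (by omega)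
  have e5 : m + j - m = j := by omega
  have h5 : ¬ (o.getD (i * n + j) none = none) := by
    rw [ho i hi j hj, signOut_none]
    exact hg
  unfold adj
  rw [e1, e2, e3, e4, e5]
  simp only [Bool.and_eq_true, decide_eq_true_eq, Bool.not_eq_true',
    decide_eq_false_iff_not]
  exact ⟨⟨hi, by omega, hi1, hj2, h5⟩, ⟨hi, by omega, hi1, hj2, h5⟩⟩

theorem nb_some (h : nb m n c o x v = some u) :
    u < m + n ∧ adj m n c o v u = true ∧ lab x u < lab x v := by
  unfold nb at h
  have h1 := List.mem_of_head? h
  rw [List.mem_filter, List.mem_range, Bool.and_eq_true, decide_eq_true_eq] at h1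
  exact h1

theorem nb_none (h : nb m n c o x v = none) : ∀ u < m + n, adj m n c o v u = true →
    lab x v ≤ lab x u := by
  unfold nb at h
  rw [List.head?_eq_none_iff, List.filter_eq_nil_iff] at h
  intro u hu hadj
  have h1 := h u (List.mem_range.2 hu)
  rw [Bool.and_eq_true, decide_eq_true_eq] at h1
  by_contra hlt
  exact h1 ⟨hadj, not_le.1 hlt⟩

/-- The cases of a step. -/
theorem step_cases (hv : v < m + n) :
    (nb m n c o x v = none ∧
      (lpS m n c o x).getD v (0, ([], [])) = x.getD v (0, ([], []))) ∨
    ∃ u < m + n, adj m n c o v u = true ∧ lab x u < lab x v ∧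
      lab (lpS m n c o x) v = lab x u ∧ nu (lpS m n c o x) v = de x u ∧
      de (lpS m n c o x) v = er m v u :: nu x u := by
  rcases h : nb m n c o x v with _ | u
  · left
    refine ⟨rfl, ?_⟩
    rw [getD_lpS hv, h]
    rfl
  · right
    obtain ⟨h1, h2, h3⟩ := nb_some h
    refine ⟨u, h1, h2, h3, ?_, ?_, ?_⟩
    · unfold lab
      rw [getD_lpS hv, h]
      rfl
    · unfold nu
      rw [getD_lpS hv, h]
      rfl
    · unfold de
      rw [getD_lpS hv, h]
      rfl

theorem getD_lp0 (hv : v < m + n) : (lp0 m n).getD v (0, ([], [])) = (v, ([], [])) := by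
  unfold lp0
  rw [List.getD_eq_getElem _ _ (by simpa using hv)]
  simp

theorem getD_lp0_ge (hv : m + n ≤ v) : (lp0 m n).getD v (0, ([], [])) = (0, ([], [])) := by
  rw [List.getD_eq_default _ _ (by simpa [lp0] using hv)]

theorem pot_zero : pot m n c o 0 = lp0 m n := rfl

theorem pot_succ (t : ℕ) : pot m n c o (t + 1) = lpS m n c o (pot m n c o t) := by
  unfold pot
  rw [Function.iterate_succ_apply']

theorem length_pot (t : ℕ) : (pot m n c o t).length = m + n := by
  cases t with
  | zero => simp [pot_zero, lp0]
  | succ t => simp [pot_succ, lpS]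

/-- Stable states. -/
def Stable (m n : ℕ) (c : Cand) (o : List Outcome) (x : PS) : Prop :=
  ∀ v < m + n, nb m n c o x v = none

theorem stable_fix (hx : x.length = m + n) (h : Stable m n c o x) : lpS m n c o x = x := by
  refine List.ext_getElem (by simp [lpS, hx]) fun i h1 h2 => ?_
  have hi : i < m + n := by rwa [hx] at h2
  have h3 := getD_lpS (m := m) (n := n) (c := c) (o := o) (x := x) hi
  rw [h i hi] at h3
  rw [List.getD_eq_getElem _ _ h1] at h3
  rw [h3]
  simp only [Option.map_none, Option.getD_none]
  rw [List.getD_eq_getElem _ _ h2]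

theorem lab_le (hv : v < m + n) : lab (lpS m n c o x) v ≤ lab x v := by
  rcases step_cases (m := m) (n := n) (c := c) (o := o) (x := x) hv with ⟨_, h⟩ | ⟨u, _, _, h1, h2, _⟩
  · unfold lab
    rw [h]
  · rw [h2]
    exact h1.le

theorem sum_drop (h : ¬ Stable m n c o x) :
    ∑ v ∈ Finset.range (m + n), lab (lpS m n c o x) v <
      ∑ v ∈ Finset.range (m + n), lab x v := by
  unfold Stable at h
  push Not at h
  obtain ⟨v, hv, hne⟩ := h
  refine Finset.sum_lt_sum (fun i hi => lab_le (Finset.mem_range.1 hi))
    ⟨v, Finset.mem_range.2 hv, ?_⟩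
  rcases step_cases (m := m) (n := n) (c := c) (o := o) (x := x) hv with ⟨h0, _⟩ | ⟨u, _, _, h1, h2, _⟩
  · exact absurd h0 hne
  · rw [h2]
    exact h1

theorem stable_or (t : ℕ) : (∃ t' < t, Stable m n c o (pot m n c o t')) ∨
    (∑ v ∈ Finset.range (m + n), lab (pot m n c o t) v) + t ≤ (m + n) * (m + n) := by
  induction t with
  | zero =>
    right
    rw [add_zero]
    calc ∑ v ∈ Finset.range (m + n), lab (pot m n c o 0) v
        ≤ ∑ v ∈ Finset.range (m + n), (m + n) := by
          refine Finset.sum_le_sum fun v hv => ?_
          have hv' := Finset.mem_range.1 hv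
          rw [pot_zero]
          unfold lab
          rw [getD_lp0 hv']
          exact hv'.le
      _ = (m + n) * (m + n) := by simp
  | succ t ih =>
    rcases ih with ⟨t', ht', h⟩ | h
    · exact Or.inl ⟨t', by omega, h⟩
    · by_cases hs : Stable m n c o (pot m n c o t)
      · exact Or.inl ⟨t, by omega, hs⟩
      · right
        have := sum_drop hs
        rw [pot_succ]
        omega

theorem stable_end : Stable m n c o (pot m n c o (stp (m + n))) := by
  rcases stable_or (m := m) (n := n) (c := c) (o := o) (stp (m + n)) with ⟨t', ht', h⟩ | h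
  · have key : ∀ d, pot m n c o (t' + d) = pot m n c o t' := by
      intro d
      induction d with
      | zero => rfl
      | succ d ih =>
        rw [← add_assoc, pot_succ, ih]
        exact stable_fix (length_pot _) h
    have := key (stp (m + n) - t')
    rw [show t' + (stp (m + n) - t') = stp (m + n) by omega] at this
    rw [this]
    exact h
  · unfold stp at h
    omega

end

end POT

open POT

theorem t_POT1 : S_POT1 := by
  intro m n c g o ho t
  induction t with
  | zero =>
    intro v
    rw [pot_zero]
    have h1 : nu (lp0 m n) v = [] := by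
      unfold nu
      by_cases hv : v < m + n
      · rw [getD_lp0 hv]
      · rw [getD_lp0_ge (not_lt.1 hv)]
    have h2 : de (lp0 m n) v = [] := by
      unfold de
      by_cases hv : v < m + n
      · rw [getD_lp0 hv]
      · rw [getD_lp0_ge (not_lt.1 hv)]
    rw [h1, h2]
    simp
  | succ t ih =>
    intro v
    rw [pot_succ]
    by_cases hv : v < m + n
    · rcases step_cases (m := m) (n := n) (c := c) (o := o) (x := pot m n c o t) hv with
        ⟨_, h⟩ | ⟨u, hu, hadj, _, _, h3, h4⟩
      · have h1 : nu (lpS m n c o (pot m n c o t)) v = nu (pot m n c o t) v := by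
          unfold nu
          rw [h]
        have h2 : de (lpS m n c o (pot m n c o t)) v = de (pot m n c o t) v := by
          unfold de
          rw [h]
        rw [h1, h2]
        obtain ⟨a, b, d, e⟩ := ih v
        exact ⟨a.trans (Nat.le_succ _), b.trans (Nat.le_succ _), d, e⟩
      · rw [h3, h4]
        obtain ⟨a, b, d, e⟩ := ih u
        refine ⟨b.trans (Nat.le_succ _), ?_, e, ?_⟩
        · rw [List.length_cons]
          omega
        · intro r hr
          rcases List.mem_cons.1 hr with rfl | hr
          · exact adj_ent ho hv hu hadj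
          · exact d r hr
    · have h := getD_lpS_ge (m := m) (n := n) (c := c) (o := o) (x := pot m n c o t)
        (not_lt.1 hv)
      have h1 : nu (lpS m n c o (pot m n c o t)) v = [] := by
        unfold nu
        rw [h]
      have h2 : de (lpS m n c o (pot m n c o t)) v = [] := by
        unfold de
        rw [h]
      rw [h1, h2]
      simp

theorem t_POT2 : S_POT2 := by
  intro m n c g o ho i hi j hj hi1 hj2 hg
  obtain ⟨h1, h2⟩ := adj_intro ho hi hj hi1 hj2 hg
  have hs := stable_end (m := m) (n := n) (c := c) (o := o)
  exact le_antisymm (nb_none (hs i (by omega)) _ (by omega) h1)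
    (nb_none (hs (m + j) (by omega)) _ (by omega) h2)

theorem t_POT3 : S_POT3 := by
  intro m n c g o σ gM ho hsc
  obtain ⟨hσ, hM⟩ := hsc
  set τ : ℕ → ℝ := fun l => if l < m then σ l else (σ l)⁻¹ with hτ
  have hτ0 : ∀ v, τ v ≠ 0 := by
    intro v
    simp only [hτ]
    split_ifs
    · exact hσ v
    · exact inv_ne_zero (hσ v)
  refine ⟨τ, hτ0, fun t => ?_⟩
  induction t with
  | zero =>
    intro v hv
    rw [pot_zero]
    have h1 : nu (lp0 m n) v = [] := by
      unfold nu
      rw [getD_lp0 hv]
    have h2 : de (lp0 m n) v = [] := by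
      unfold de
      rw [getD_lp0 hv]
    have h3 : lab (lp0 m n) v = v := by
      unfold lab
      rw [getD_lp0 hv]
    rw [h1, h2, h3]
    simp only [vl, List.map_nil, List.prod_nil, one_mul, hτ]
    split_ifs
    · rfl
    · exact inv_inv _
  | succ t ih =>
    intro v hv
    rw [pot_succ]
    rcases step_cases (m := m) (n := n) (c := c) (o := o) (x := pot m n c o t) hv with
      ⟨_, h⟩ | ⟨u, hu, hadj, _, h2, h3, h4⟩
    · have e1 : nu (lpS m n c o (pot m n c o t)) v = nu (pot m n c o t) v := by
        unfold nu
        rw [h]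
      have e2 : de (lpS m n c o (pot m n c o t)) v = de (pot m n c o t) v := by
        unfold de
        rw [h]
      have e3 : lab (lpS m n c o (pot m n c o t)) v = lab (pot m n c o t) v := by
        unfold lab
        rw [h]
      rw [e1, e2, e3]
      exact ih v hv
    · rw [h2, h3, h4]
      obtain ⟨a1, a2, a3, a4, _, a6⟩ := adj_spec ho hv hu hadj
      have hge : gM (er m v u) = σ u * σ v * g (er m v u) := by
        have h5 := hM _ a1 _ a6 a3 a4
        unfold er
        rw [h5]
        have h6 : m + (max v u - m) = max v u := by omega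
        rw [h6]
        rcases le_total v u with h7 | h7
        · rw [min_eq_left h7, max_eq_right h7]
          ring
        · rw [min_eq_right h7, max_eq_left h7]
          ring
      have hihu := ih u hu
      have hT := hτ0 (lab (pot m n c o t) u)
      have hvlc : ∀ (G : Reg → ℝ) (r : Reg) (e : List Reg), vl G (r :: e) = G r * vl G e := by
        intro G r e
        simp [vl]
      rw [hvlc, hvlc, hge]
      rcases le_total v u with h7 | h7
      · rw [min_eq_left h7] at a1
        rw [max_eq_right h7] at a2
        rw [if_pos a1]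
        rw [if_neg (not_lt.2 a2)] at hihu
        have : vl gM (nu (pot m n c o t) u) * vl g (de (pot m n c o t) u) * σ u *
            τ (lab (pot m n c o t) u) =
            vl g (nu (pot m n c o t) u) * vl gM (de (pot m n c o t) u) := by
          rw [← hihu]
          field_simp
        calc _ = (vl gM (nu (pot m n c o t) u) * vl g (de (pot m n c o t) u) * σ u *
            τ (lab (pot m n c o t) u)) * (σ v * g (er m v u)) := by ring
          _ = _ := by
            rw [this]
            ring
      · rw [min_eq_right h7] at a1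
        rw [max_eq_left h7] at a2
        rw [if_neg (not_lt.2 a2)]
        rw [if_pos a1] at hihu
        have : vl gM (nu (pot m n c o t) u) * vl g (de (pot m n c o t) u) * σ u *
            (τ (lab (pot m n c o t) u))⁻¹ =
            vl g (nu (pot m n c o t) u) * vl gM (de (pot m n c o t) u) := by
          rw [← hihu]
          field_simp
        calc _ = (vl gM (nu (pot m n c o t) u) * vl g (de (pot m n c o t) u) * σ u *
            (τ (lab (pot m n c o t) u))⁻¹) * (σ v * g (er m v u)) := by ring
          _ = _ := by
            rw [this]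
            ring

end Pool.Agent.TH558.GR
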